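import Mathlib
import Pool.Agent.R636.BGap8

/-!
# The gap above `1/3` for semiorders, and for interval orders without `Y + 1`

The class `𝒟` of the problem consists of semiorders. Here Q1 is answered (positively) in the class of
semiorders, and in a larger class of interval orders.

**Theorem.** There is an absolute constant `ε > 0` such that `P ∈ 𝒟` or `δ(P) ≥ 1/3 + ε` for every finite
interval order `P` (no induced `2 + 2`) in which no element is incomparable to all four elements of a copy
of the poset `Y` with the relations `u, u' < y < v`, or of its dual. These include all semiorders (no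
induced `2 + 2` and no induced `3 + 1`); for semiorders `δ(P) ≥ 1/3` was proved by Brightwell (1989). The
same dichotomy holds for all posets built by disjoint sums and direct sums from these posets and from the
posets of the classes known before.

Proof. The tools are the theorems of the starting library on good pairs and on triples
(`Pool.Agent.R636.BG.pair_gap`). Let `P` be an interval order with `n ≥ 2` elements which is not a direct
sum. Every element has at most `n - 2` lower and at most `n - 2` upper elements; so by the pigeonhole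
principle there are two elements `x`, `y` for which the numbers (lower elements) - (upper elements) differ
by at most one. In an interval order the sets of lower elements are nested, and so are the sets of upper
elements. If `x` and `y` are ordered in the same way by both, then they are distinguished by at most one
element; otherwise both sets of `y` are larger than those of `x`, the differences are chains since there is
no `Y + 1`, and one of the pairs `(x, y)`, dual or not, is a good pair which is not exceptional. In the first case the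
theorem on good pairs gives the gap or an autonomous copy `{x, y, z}` of the three-element poset, `x < z`.
An element `w` outside it which is incomparable to it has at most the lower elements and at most the upper
elements of `y`. If both sets are smaller, then `(w, y)` is a nested pair. If the lower elements are the
same, then the elements above `y` and not above `w` form a chain, since `x < z` are below them and
incomparable to `w`, and `w`, `y`, `x` are a triple as in the theorem on triples; dually for the upper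
elements. So there are no such elements `w`, and `P` is a direct sum or has three elements.
-/

set_option autoImplicit false

open Finset

namespace Pool.Agent.Results.MP_33fb9b_co.Semiorders

open Pool.Agent.H13R3.WB Pool.Agent.H931R3.Bal Pool.Agent.R636.BG

/-- Interval orders: no induced `2 + 2`. -/
def IntervalOrder (P : Type) [PartialOrder P] : Prop :=
  ∀ a b c d : P, a < b → c < d → a < d ∨ c < b

/-- No induced `Y + 1`: no element `x` is incomparable to all elements of a copy of the poset `Y` with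
the four elements `u`, `u'`, `y`, `v` and the relations `u, u' < y < v`. -/
def YOneFree (P : Type) [PartialOrder P] : Prop :=
  ∀ x u u' y v : P, u < y → u' < y → y < v → ¬ u ≤ u' → ¬ u' ≤ u → ¬ u ≤ x → ¬ x ≤ u →
    ¬ u' ≤ x → ¬ x ≤ u' → ¬ y ≤ x → ¬ x ≤ y → ¬ v ≤ x → ¬ x ≤ v → False

/-- Semiorders (Luce; Scott and Suppes): no induced `2 + 2` and no induced `3 + 1`. -/
def Semiorder (P : Type) [PartialOrder P] : Prop :=
  (∀ a b c d : P, a < b → c < d → a < d ∨ c < b) ∧
  (∀ a b c d : P, a < b → b < c → a < d ∨ d < c)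

/-- the class: interval orders without induced `Y + 1` and its dual -/
def Tame (P : Type) [PartialOrder P] : Prop := IntervalOrder P ∧ YOneFree P ∧ YOneFree Pᵒᵈ

lemma Semiorder.tame {P : Type} [PartialOrder P] (h : Semiorder P) : Tame P := by
  refine ⟨h.1, ?_, ?_⟩
  · intro x u u' y v h1 _ h3 _ _ h6 h7 _ _ _ _ h12 h13
    rcases h.2 u y v x h1 h3 with h4 | h4
    · exact h6 h4.le
    · exact h13 h4.le
  · intro x u u' y v h1 _ h3 _ _ h6 h7 _ _ _ _ h12 h13
    rcases h.2 (OrderDual.ofDual v) (OrderDual.ofDual y) (OrderDual.ofDual u) (OrderDual.ofDual x)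
      h3 h1 with h4 | h4
    · exact h13 (show x ≤ v from h4.le)
    · exact h6 (show u ≤ x from h4.le)

lemma IntervalOrder.dual {P : Type} [PartialOrder P] (h : IntervalOrder P) : IntervalOrder Pᵒᵈ := by
  intro a b c d hab hcd
  exact (h (OrderDual.ofDual d) (OrderDual.ofDual c) (OrderDual.ofDual b) (OrderDual.ofDual a)
    hcd hab)

lemma Tame.dual {P : Type} [PartialOrder P] (h : Tame P) : Tame Pᵒᵈ := by
  refine ⟨h.1.dual, h.2.2, ?_⟩
  intro x u u' y v h1 h2 h3 h4 h5 h6 h7 h8 h9 h10 h11 h12 h13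
  exact h.2.1 (OrderDual.ofDual (OrderDual.ofDual x)) (OrderDual.ofDual (OrderDual.ofDual u))
    (OrderDual.ofDual (OrderDual.ofDual u')) (OrderDual.ofDual (OrderDual.ofDual y))
    (OrderDual.ofDual (OrderDual.ofDual v)) h1 h2 h3 h4 h5 h6 h7 h8 h9 h10 h11 h12 h13

lemma Tame.sub {P : Type} [PartialOrder P] (h : Tame P) (T : Set P) : Tame T := by
  refine ⟨fun a b c d hab hcd => h.1 a b c d hab hcd, ?_, ?_⟩
  · intro x u u' y v h1 h2 h3 h4 h5 h6 h7 h8 h9 h10 h11 h12 h13
    exact h.2.1 x u u' y v h1 h2 h3 h4 h5 h6 h7 h8 h9 h10 h11 h12 h13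
  · intro x u u' y v h1 h2 h3 h4 h5 h6 h7 h8 h9 h10 h11 h12 h13
    exact h.2.2 (OrderDual.toDual (OrderDual.ofDual x : T).1) (OrderDual.toDual (OrderDual.ofDual u : T).1)
      (OrderDual.toDual (OrderDual.ofDual u' : T).1) (OrderDual.toDual (OrderDual.ofDual y : T).1)
      (OrderDual.toDual (OrderDual.ofDual v : T).1) h1 h2 h3 h4 h5 h6 h7 h8 h9 h10 h11 h12 h13

lemma Semiorder.iso {P Q : Type} [PartialOrder P] [PartialOrder Q] (h : Semiorder P) (e : Q ≃o P) :
    Semiorder Q := by
  refine ⟨fun a b c d hab hcd => ?_, fun a b c d hab hbc => ?_⟩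
  · have := h.1 (e a) (e b) (e c) (e d) (e.lt_iff_lt.2 hab) (e.lt_iff_lt.2 hcd)
    simpa only [e.lt_iff_lt] using this
  · have := h.2 (e a) (e b) (e c) (e d) (e.lt_iff_lt.2 hab) (e.lt_iff_lt.2 hbc)
    simpa only [e.lt_iff_lt] using this

lemma Semiorder.lex {P Q : Type} [PartialOrder P] [PartialOrder Q] (h : Semiorder P) (h' : Semiorder Q) :
    Semiorder (P ⊕ₗ Q) := by
  have e1 : ∀ (p : P) (q : Q), (toLex (Sum.inl p) : P ⊕ₗ Q) < toLex (Sum.inr q) := fun p q =>
    Sum.Lex.inl_lt_inr p q
  have e2 : ∀ (p : P) (q : Q), ¬ (toLex (Sum.inr q) : P ⊕ₗ Q) < toLex (Sum.inl p) := fun p q =>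
    Sum.Lex.not_inr_lt_inl
  have e3 : ∀ (p p' : P), (toLex (Sum.inl p) : P ⊕ₗ Q) < toLex (Sum.inl p') ↔ p < p' := fun p p' =>
    Sum.Lex.inl_lt_inl_iff
  have e4 : ∀ (q q' : Q), (toLex (Sum.inr q) : P ⊕ₗ Q) < toLex (Sum.inr q') ↔ q < q' := fun p p' =>
    Sum.Lex.inr_lt_inr_iff
  refine ⟨?_, ?_⟩
  · rintro (a | a) (b | b) (c | c) (d | d) hab hcd
    all_goals
      first
      | exact absurd hab (e2 _ _)
      | exact absurd hcd (e2 _ _)
      | exact Or.inl (e1 _ _)
      | exact Or.inr (e1 _ _)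
      | exact (h.1 a b c d ((e3 _ _).1 hab) ((e3 _ _).1 hcd)).imp (e3 _ _).2 (e3 _ _).2
      | exact (h'.1 a b c d ((e4 _ _).1 hab) ((e4 _ _).1 hcd)).imp (e4 _ _).2 (e4 _ _).2
  · rintro (a | a) (b | b) (c | c) (d | d) hab hbc
    all_goals
      first
      | exact absurd hab (e2 _ _)
      | exact absurd hbc (e2 _ _)
      | exact Or.inl (e1 _ _)
      | exact Or.inr (e1 _ _)
      | exact (h.2 a b c d ((e3 _ _).1 hab) ((e3 _ _).1 hbc)).imp (e3 _ _).2 (e3 _ _).2
      | exact (h'.2 a b c d ((e4 _ _).1 hab) ((e4 _ _).1 hbc)).imp (e4 _ _).2 (e4 _ _).2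

/-- all posets of the class `𝒟` are semiorders -/
theorem InD.semiorder {P : Type} [PartialOrder P] (h : InD P) : Semiorder P := by
  induction h with
  | one P e =>
    obtain ⟨e⟩ := e
    refine Semiorder.iso ⟨?_, ?_⟩ e
    · intro a b c d h1
      exact absurd h1 (by rw [Subsingleton.elim a b]; exact lt_irrefl b)
    · intro a b c d h1
      exact absurd h1 (by rw [Subsingleton.elim a b]; exact lt_irrefl b)
  | three P e =>
    obtain ⟨e⟩ := e
    refine Semiorder.iso ⟨?_, ?_⟩ e
    · rintro (a | a) (b | b) (c | c) (d | d) h1 h2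
      all_goals
        first
        | (rw [Sum.inl_lt_inl_iff] at h1 h2
           left
           rw [Sum.inl_lt_inl_iff]
           omega)
        | (exfalso
           revert h1 h2
           simp)
    · rintro (a | a) (b | b) (c | c) (d | d) h1 h2
      all_goals
        first
        | (rw [Sum.inl_lt_inl_iff] at h1 h2
           exfalso
           omega)
        | (exfalso
           revert h1 h2
           simp)
  | sum P Q R _ _ e ihP ihQ =>
    obtain ⟨e⟩ := e
    exact (ihP.lex ihQ).iso e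

/-- in an interval order the sets of lower elements are nested -/
lemma IntervalOrder.nestD {P : Type} [PartialOrder P] (h : IntervalOrder P) (x y : P) :
    (∀ w, w < x → w < y) ∨ (∀ w, w < y → w < x) := by
  by_contra hcon
  rw [not_or] at hcon
  push Not at hcon
  obtain ⟨⟨w, w1, w2⟩, v, v1, v2⟩ := hcon
  rcases h w x v y w1 v1 with h3 | h3
  · exact w2 h3
  · exact v2 h3

lemma IntervalOrder.nestU {P : Type} [PartialOrder P] (h : IntervalOrder P) (x y : P) :
    (∀ w, x < w → y < w) ∨ (∀ w, y < w → x < w) := by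
  by_contra hcon
  rw [not_or] at hcon
  push Not at hcon
  obtain ⟨⟨w, w1, w2⟩, v, v1, v2⟩ := hcon
  rcases h x w y v w1 v1 with h3 | h3
  · exact v2 h3
  · exact w2 h3

/-- the statements on good pairs and on triples for one number `ε` -/
def PairGap (ε : ℝ) : Prop := ∀ (P : Type) [Fintype P] [PartialOrder P],
  (∀ a b : P, GoodPair P a b → Exc P a b ∨ 1 / 3 + ε ≤ balance P) ∧
  (∀ x y z : P, Near P x y → Near P y z → Near P x z → 1 / 3 + ε ≤ balance P)

/-- nested pairs whose differences are chains -/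
lemma nested {ε : ℝ} (hg : PairGap ε) {P : Type} [Fintype P] [PartialOrder P] (hY : YOneFree P)
    (hY' : YOneFree Pᵒᵈ) {x y : P} (hD : ∀ w, w < x → w < y) (hU : ∀ w, x < w → y < w)
    (hD' : ∃ u, u < y ∧ ¬ u < x) (hU' : ∃ v, y < v ∧ ¬ x < v) : 1 / 3 + ε ≤ balance P := by
  obtain ⟨u, u1, u2⟩ := hD'
  obtain ⟨v, v1, v2⟩ := hU'
  have hne : x ≠ y := by
    rintro rfl
    exact u2 u1
  have hyx : ¬ y ≤ x := fun h => u2 (u1.trans_le h)
  have hxy : ¬ x ≤ y := fun h => v2 (lt_of_le_of_lt h v1)
  have iu : ∀ u, u < y → ¬ u < x → ¬ u ≤ x ∧ ¬ x ≤ u := by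
    intro u k1 k2
    refine ⟨fun h => ?_, fun h => hxy (h.trans k1.le)⟩
    rcases h.lt_or_eq with h3 | h3
    · exact k2 h3
    · rw [h3] at k1
      exact hxy k1.le
  have iv : ∀ v, y < v → ¬ x < v → ¬ v ≤ x ∧ ¬ x ≤ v := by
    intro v k1 k2
    refine ⟨fun h => hyx (k1.le.trans h), fun h => ?_⟩
    rcases h.lt_or_eq with h3 | h3
    · exact k2 h3
    · rw [← h3] at k1
      exact hyx k1.le
  have cD : ∀ w w', w < y → w' < y → ¬ w < x → ¬ w' < x → w ≤ w' ∨ w' ≤ w := by
    intro w w' k1 k2 k3 k4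
    by_contra hcon
    rw [not_or] at hcon
    exact hY x w w' y v k1 k2 v1 hcon.1 hcon.2 (iu w k1 k3).1 (iu w k1 k3).2 (iu w' k2 k4).1
      (iu w' k2 k4).2 hyx hxy (iv v v1 v2).1 (iv v v1 v2).2
  have cU : ∀ w w', y < w → y < w' → ¬ x < w → ¬ x < w' → w ≤ w' ∨ w' ≤ w := by
    intro w w' k1 k2 k3 k4
    by_contra hcon
    rw [not_or] at hcon
    exact hY' (OrderDual.toDual x) (OrderDual.toDual w) (OrderDual.toDual w') (OrderDual.toDual y)
      (OrderDual.toDual u) k1 k2 u1 hcon.2 hcon.1 (iv w k1 k3).2 (iv w k1 k3).1 (iv w' k2 k4).2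
      (iv w' k2 k4).1 hxy hyx (iu u u1 u2).2 (iu u u1 u2).1
  have hs := prob_add (P := P) hne
  rcases le_total (prob P x y) (1 / 2) with h2 | h2
  · rcases (hg P).1 x y ⟨hne, hD, cU, h2⟩ with h3 | h3
    · exact absurd (h3.1 u u1) u2
    · exact h3
  · have h2' : prob Pᵒᵈ (OrderDual.toDual x) (OrderDual.toDual y) ≤ 1 / 2 := by
      rw [prob_dual]
      show prob P y x ≤ 1 / 2
      linarith
    have : Nonempty P := ⟨x⟩
    rcases (hg Pᵒᵈ).1 (OrderDual.toDual x) (OrderDual.toDual y)
      ⟨hne, hU, fun w w' k1 k2 k3 k4 => (cD w w' k1 k2 k3 k4).symm, h2'⟩ with h3 | h3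
    · exact absurd (h3.1 v v1) v2
    · rw [balance_dual P] at h3
      exact h3

/-- near twins: equal lower elements, and at most one element above `x` and not above `y` -/
lemma near_twin {ε : ℝ} (hg : PairGap ε) {P : Type} [Fintype P] [PartialOrder P] {x y : P}
    (hne : x ≠ y) (hD : ∀ w, w < x ↔ w < y) (hU : ∀ w, y < w → x < w)
    (h1 : ∀ w w', x < w → ¬ y < w → x < w' → ¬ y < w' → w = w') :
    1 / 3 + ε ≤ balance P ∨ ∃ z, x < z ∧ ¬ y < z ∧ (∀ w, w < z → w < x ∨ w = x) ∧
      (∀ w, y < w → z < w) := by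
  have hs := prob_add (P := P) hne
  rcases le_total (prob P x y) (1 / 2) with h2 | h2
  · left
    rcases (hg P).1 x y ⟨hne, fun w hw => (hD w).1 hw, fun w w' k1 _ k3 _ => absurd (hU w k1) k3, h2⟩ with h3 | h3
    · obtain ⟨-, -, z, z1, z2, -⟩ := h3
      exact absurd (hU z z1) z2
    · exact h3
  · have h2' : prob P y x ≤ 1 / 2 := by linarith
    rcases (hg P).1 y x ⟨hne.symm, fun w hw => (hD w).2 hw,
      fun w w' k1 k2 k3 k4 => Or.inl (h1 w w' k1 k3 k2 k4).le, h2'⟩ with h3 | h3
    · right
      obtain ⟨-, -, z, z1, z2, -, z4⟩ := h3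
      obtain ⟨c1, c2⟩ := z4.1 (fun w k1 k2 => h1 w z k1 k2 z1 z2)
      refine ⟨z, z1, z2, fun w hw => ?_, c2⟩
      rcases c1 w hw with h5 | h5
      · exact Or.inl ((hD w).2 h5)
      · exact Or.inr h5
    · exact Or.inl h3

/-- `P` is not a direct sum -/
def Indec (P : Type) [PartialOrder P] : Prop :=
  ∀ S : Set P, S.Nonempty → Sᶜ.Nonempty → ¬ ∀ s ∈ S, ∀ t ∉ S, s ≤ t

lemma Indec.dual {P : Type} [PartialOrder P] (h : Indec P) : Indec Pᵒᵈ := by
  intro S hS hS' hst
  let T : Set P := fun x => OrderDual.toDual x ∈ S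
  refine h Tᶜ ?_ ?_ ?_
  · obtain ⟨x, hx⟩ := hS'
    exact ⟨OrderDual.ofDual x, hx⟩
  · obtain ⟨x, hx⟩ := hS
    exact ⟨OrderDual.ofDual x, fun h1 => h1 hx⟩
  · intro s hs t ht
    have ht' : OrderDual.toDual t ∈ S := by
      by_contra hc
      exact ht hc
    exact hst (OrderDual.toDual t) ht' (OrderDual.toDual s) hs

/-- `{x, y, z}` is an autonomous copy of the poset with three elements in `𝒟`: `x < z`, and `y` is
incomparable to both -/
structure E3 (P : Type) [PartialOrder P] (x y z : P) : Prop where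
  lt : x < z
  ne : x ≠ y
  down : ∀ w, w < x ↔ w < y
  downz : ∀ w, w < z ↔ w < x ∨ w = x
  up : ∀ w, z < w ↔ y < w
  upx : ∀ w, x < w ↔ y < w ∨ w = z

lemma E3.dual {P : Type} [PartialOrder P] {x y z : P} (h : E3 P x y z) :
    E3 Pᵒᵈ (OrderDual.toDual z) (OrderDual.toDual y) (OrderDual.toDual x) where
  lt := h.lt
  ne := by
    intro h1
    have h2 : z = y := h1
    have h3 := h.lt
    rw [h2, ← h.down x] at h3
    exact lt_irrefl x h3
  down := fun w => h.up (OrderDual.ofDual w)
  downz := fun w => by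
    have h1 := h.upx (OrderDual.ofDual w)
    have h2 := h.up (OrderDual.ofDual w)
    exact h1.trans (or_congr_left h2.symm)
  up := fun w => h.down (OrderDual.ofDual w)
  upx := fun w => by
    have h1 := h.downz (OrderDual.ofDual w)
    have h2 := h.down (OrderDual.ofDual w)
    exact h1.trans (or_congr_left h2)

/-- no element outside the copy has the same lower elements -/
lemma E3.low {ε : ℝ} (hg : PairGap ε) {P : Type} [Fintype P] [PartialOrder P] (hY : YOneFree Pᵒᵈ)
    {x y z : P} (h : E3 P x y z) {w : P} (hwx : w ≠ x) (hwy : w ≠ y) (hwz : w ≠ z)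
    (hDw : ∀ v, v < w ↔ v < x) (hUw : ∀ v, w < v → y < v) (n1 : ¬ w < x) (n2 : ¬ y < w) :
    1 / 3 + ε ≤ balance P := by
  have xw : ¬ x ≤ w := by
    intro h1
    rcases h1.lt_or_eq with h2 | h2
    · exact lt_irrefl x ((hDw x).1 h2)
    · exact hwx h2.symm
  have wx : ¬ w ≤ x := fun h1 => h1.lt_or_eq.elim n1 hwx
  have zw : ¬ z ≤ w := fun h1 => xw (h.lt.le.trans h1)
  have wz : ¬ w ≤ z := by
    intro h1
    rcases h1.lt_or_eq with h2 | h2
    · rcases (h.downz w).1 h2 with h3 | h3
      · exact n1 h3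
      · exact hwx h3
    · exact hwz h2
  -- elements above `y` and not above `w` form a chain
  have ch : ∀ v v', y < v → y < v' → ¬ w < v → ¬ w < v' → v ≤ v' ∨ v' ≤ v := by
    intro v v' k1 k2 k3 k4
    by_contra hcon
    rw [not_or] at hcon
    have inc : ∀ v, y < v → ¬ w < v → ¬ v ≤ w ∧ ¬ w ≤ v := by
      intro v k1 k3
      refine ⟨fun h1 => n2 (k1.trans_le h1), fun h1 => ?_⟩
      rcases h1.lt_or_eq with h2 | h2
      · exact k3 h2
      · exact n2 (h2 ▸ k1)
    exact hY (OrderDual.toDual w) (OrderDual.toDual v) (OrderDual.toDual v') (OrderDual.toDual z)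
      (OrderDual.toDual x) ((h.up v).2 k1) ((h.up v').2 k2) h.lt hcon.2 hcon.1 (inc v k1 k3).2
      (inc v k1 k3).1 (inc v' k2 k4).2 (inc v' k2 k4).1 wz zw wx xw
  refine (hg P).2 w y x ⟨hwy, fun v => (hDw v).trans (h.down v), ?_, ch⟩
    ⟨h.ne.symm, fun v => (h.down v).symm, ?_, ?_⟩ ⟨hwx, hDw, ?_, ?_⟩
  · intro v v' k1 _ k3 _
    exact absurd (hUw v k1) k3
  · intro v v' k1 _ k3 _
    exact absurd ((h.upx v).2 (Or.inl k1)) k3
  · intro v v' k1 k2 k3 k4
    have e1 := ((h.upx v).1 k1).resolve_left k3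
    have e2 := ((h.upx v').1 k2).resolve_left k4
    exact Or.inl (e1.trans e2.symm).le
  · intro v v' k1 _ k3 _
    exact absurd ((h.upx v).2 (Or.inl (hUw v k1))) k3
  · intro v v' k1 k2 k3 k4
    rcases (h.upx v).1 k1 with e1 | e1
    · rcases (h.upx v').1 k2 with e2 | e2
      · exact ch v v' e1 e2 k3 k4
      · right
        rw [e2]
        exact ((h.up v).2 e1).le
    · rcases (h.upx v').1 k2 with e2 | e2
      · left
        rw [e1]
        exact ((h.up v').2 e2).le
      · exact Or.inl (e1.trans e2.symm).le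

/-- near twins in an indecomposable poset of the class -/
lemma Tame.core {ε : ℝ} (hg : PairGap ε) {P : Type} [Fintype P] [PartialOrder P] (h : Tame P)
    (hI : Indec P) {x y : P} (hne : x ≠ y) (hD : ∀ w, w < x ↔ w < y) (hU : ∀ w, y < w → x < w)
    (h1 : ∀ w w', x < w → ¬ y < w → x < w' → ¬ y < w' → w = w') :
    1 / 3 + ε ≤ balance P ∨ ∃ z, x < z ∧ ∀ w, w = x ∨ w = y ∨ w = z := by
  obtain ⟨hIO, hY, hY'⟩ := h
  rcases near_twin hg hne hD hU h1 with h2 | ⟨z, z1, z2, z3, z4⟩
  · exact Or.inl h2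
  have hE : E3 P x y z := by
    refine ⟨z1, hne, hD, ?_, ?_, ?_⟩
    · intro w
      refine ⟨z3 w, fun h3 => ?_⟩
      rcases h3 with h3 | h3
      · exact h3.trans z1
      · exact h3 ▸ z1
    · intro w
      refine ⟨fun h3 => ?_, z4 w⟩
      by_contra h4
      have h5 := h1 w z (z1.trans h3) h4 z1 z2
      rw [h5] at h3
      exact lt_irrefl z h3
    · intro w
      refine ⟨fun h3 => ?_, fun h3 => ?_⟩
      · by_cases h4 : y < w
        · exact Or.inl h4
        · exact Or.inr (h1 w z h3 h4 z1 z2)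
      · rcases h3 with h3 | h3
        · exact hU w h3
        · exact h3 ▸ z1
  by_cases hall : ∀ w, w < x ∨ y < w ∨ w = x ∨ w = y ∨ w = z
  · -- there are no other elements
    right
    have hx : ∀ v, ¬ v < x := by
      intro v hv
      refine hI {w | w < x} ⟨v, hv⟩ ⟨x, lt_irrefl x⟩ ?_
      intro s hs t ht
      rw [Set.mem_ofPred_eq] at hs ht
      rcases hall t with h3 | h3 | h3 | h3 | h3
      · exact absurd h3 ht
      · exact (((hD s).1 hs).trans h3).le
      · exact h3 ▸ hs.le
      · exact h3 ▸ ((hD s).1 hs).le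
      · exact h3 ▸ (hs.trans z1).le
    have hy : ∀ u, ¬ y < u := by
      intro u hu
      refine hI {w | ¬ y < w} ⟨y, lt_irrefl y⟩ ⟨u, fun h3 => h3 hu⟩ ?_
      intro s hs t ht
      rw [Set.mem_ofPred_eq] at hs ht
      have ht' : y < t := not_not.1 ht
      rcases hall s with h3 | h3 | h3 | h3 | h3
      · exact absurd h3 (hx s)
      · exact absurd h3 hs
      · exact h3 ▸ (hU t ht').le
      · exact h3 ▸ ht'.le
      · exact h3 ▸ (z4 t ht').le
    exact ⟨z, z1, fun w => by
      rcases hall w with h3 | h3 | h3 | h3 | h3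
      · exact absurd h3 (hx w)
      · exact absurd h3 (hy w)
      · exact Or.inl h3
      · exact Or.inr (Or.inl h3)
      · exact Or.inr (Or.inr h3)⟩
  left
  push Not at hall
  obtain ⟨w, w1, w2, w3, w4, w5⟩ := hall
  have wz : ¬ w < z := fun h3 => ((hE.downz w).1 h3).elim w1 w3
  have xw : ¬ x < w := fun h3 => ((hE.upx w).1 h3).elim w2 w5
  have zw : ¬ z < w := fun h3 => w2 ((hE.up w).1 h3)
  have hDw : ∀ v, v < w → v < x := by
    intro v hv
    rcases hIO v w x z hv z1 with h3 | h3
    · rcases (hE.downz v).1 h3 with h4 | h4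
      · exact h4
      · rw [h4] at hv
        exact absurd hv xw
    · exact absurd h3 xw
  have hUw : ∀ v, w < v → y < v := by
    intro v hv
    rcases hIO w v x z hv z1 with h3 | h3
    · exact absurd h3 wz
    · rcases (hE.upx v).1 h3 with h4 | h4
      · exact h4
      · rw [h4] at hv
        exact absurd hv wz
  by_cases c1 : ∀ v, v < x → v < w
  · exact hE.low hg hY' w3 w4 w5 (fun v => ⟨hDw v, c1 v⟩) hUw w1 w2
  by_cases c2 : ∀ v, y < v → w < v
  · have : Nonempty P := ⟨x⟩
    have h4 := hE.dual.low hg (w := OrderDual.toDual w) (by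
        intro x u u' y v h1 h2 h3 h4 h5 h6 h7 h8 h9 h10 h11 h12 h13
        exact hY (OrderDual.ofDual (OrderDual.ofDual x)) (OrderDual.ofDual (OrderDual.ofDual u))
          (OrderDual.ofDual (OrderDual.ofDual u')) (OrderDual.ofDual (OrderDual.ofDual y))
          (OrderDual.ofDual (OrderDual.ofDual v)) h1 h2 h3 h4 h5 h6 h7 h8 h9 h10 h11 h12 h13)
      w5 w4 w3 (fun v => ⟨fun h5 => (hE.up _).2 (hUw _ h5), fun h5 => c2 _ ((hE.up _).1 h5)⟩)
      (fun v h5 => (hD _).1 (hDw _ h5)) zw (fun h5 => w1 ((hD w).2 h5))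
    rw [balance_dual P] at h4
    exact h4
  push Not at c1 c2
  obtain ⟨u, u1, u2⟩ := c1
  obtain ⟨v, v1, v2⟩ := c2
  exact nested hg hY hY' (x := w) (y := y) (fun v hv => (hD v).1 (hDw v hv)) hUw
    ⟨u, (hD u).1 u1, u2⟩ ⟨v, v1, v2⟩

/-- an indecomposable interval order has near twins or a nested pair -/
lemma IntervalOrder.exists_near {P : Type} [Fintype P] [PartialOrder P] (h : IntervalOrder P)
    (hI : Indec P) (hn : 2 ≤ Fintype.card P) :
    ∃ x y : P, x ≠ y ∧ (
      ((∀ w, w < x ↔ w < y) ∧ (∀ w, y < w → x < w) ∧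
        (∀ w w', x < w → ¬ y < w → x < w' → ¬ y < w' → w = w')) ∨
      ((∀ w, x < w ↔ y < w) ∧ (∀ w, w < x → w < y) ∧
        (∀ w w', w < y → ¬ w < x → w' < y → ¬ w' < x → w = w')) ∨
      ((∀ w, w < x → w < y) ∧ (∀ w, x < w → y < w) ∧ (∃ u, u < y ∧ ¬ u < x) ∧
        ∃ v, y < v ∧ ¬ x < v)) := by
  classical
  set n := Fintype.card P with hndef
  let D : P → Finset P := fun x => univ.filter (fun w => w < x)
  let U : P → Finset P := fun x => univ.filter (fun w => x < w)
  have mD : ∀ x w, w ∈ D x ↔ w < x := fun x w => by simp [D]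
  have mU : ∀ x w, w ∈ U x ↔ x < w := fun x w => by simp [U]
  have other : ∀ x : P, ∃ y, y ≠ x := by
    intro x
    have : Nontrivial P := Fintype.one_lt_card_iff_nontrivial.1 (by omega)
    exact exists_ne x
  -- no bottom and no top element
  have hDn : ∀ x, (D x).card ≤ n - 2 := by
    intro x
    obtain ⟨t, ht, htx⟩ : ∃ t, t ≠ x ∧ ¬ t < x := by
      by_contra hcon
      push Not at hcon
      obtain ⟨y, hy⟩ := other x
      refine hI {w | w ≠ x} ⟨y, hy⟩ ⟨x, fun h3 => h3 rfl⟩ ?_
      intro s hs t ht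
      rw [Set.mem_ofPred_eq] at hs ht
      rw [not_not.1 ht]
      exact (hcon s hs).le
    have hsub : D x ⊆ (univ.erase x).erase t := by
      intro w hw
      rw [mD] at hw
      rw [mem_erase, mem_erase]
      exact ⟨fun h3 => htx (h3 ▸ hw), hw.ne, mem_univ _⟩
    have := card_le_card hsub
    rw [card_erase_of_mem (mem_erase.2 ⟨ht, mem_univ _⟩), card_erase_of_mem (mem_univ _), card_univ] at this
    omega
  have hUn : ∀ x, (U x).card ≤ n - 2 := by
    intro x
    obtain ⟨t, ht, htx⟩ : ∃ t, t ≠ x ∧ ¬ x < t := by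
      by_contra hcon
      push Not at hcon
      obtain ⟨y, hy⟩ := other x
      refine hI {x} ⟨x, rfl⟩ ⟨y, hy⟩ ?_
      intro s hs t ht
      rw [Set.mem_singleton_iff] at hs ht
      rw [hs]
      exact (hcon t ht).le
    have hsub : U x ⊆ (univ.erase x).erase t := by
      intro w hw
      rw [mU] at hw
      rw [mem_erase, mem_erase]
      exact ⟨fun h3 => htx (h3 ▸ hw), hw.ne', mem_univ _⟩
    have := card_le_card hsub
    rw [card_erase_of_mem (mem_erase.2 ⟨ht, mem_univ _⟩), card_erase_of_mem (mem_univ _), card_univ] at this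
    omega
  have hcard : (range (n - 1)).card < (univ : Finset P).card := by
    rw [card_range, card_univ]
    omega
  obtain ⟨x, -, y, -, hne, hxy⟩ := exists_ne_map_eq_of_card_lt_of_maps_to hcard
    (f := fun x => ((D x).card + (n - 2 - (U x).card)) / 2) (by
      intro x _
      have h1 := hDn x
      have h2 := hUn x
      simp only [coe_range, Set.mem_Iio]
      omega)
  have main : ∀ x y : P, x ≠ y → (∀ w, w < x → w < y) → (∀ w, y < w → x < w) →
      ((D x).card + (n - 2 - (U x).card)) / 2 = ((D y).card + (n - 2 - (U y).card)) / 2 →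
      ∃ x y : P, x ≠ y ∧ (
      ((∀ w, w < x ↔ w < y) ∧ (∀ w, y < w → x < w) ∧
        (∀ w w', x < w → ¬ y < w → x < w' → ¬ y < w' → w = w')) ∨
      ((∀ w, x < w ↔ y < w) ∧ (∀ w, w < x → w < y) ∧
        (∀ w w', w < y → ¬ w < x → w' < y → ¬ w' < x → w = w')) ∨
      ((∀ w, w < x → w < y) ∧ (∀ w, x < w → y < w) ∧ (∃ u, u < y ∧ ¬ u < x) ∧
        ∃ v, y < v ∧ ¬ x < v)) := by
    intro x y hne k1 k2 k3
    have s1 : D x ⊆ D y := fun w hw => (mD y w).2 (k1 w ((mD x w).1 hw))
    have s2 : U y ⊆ U x := fun w hw => (mU x w).2 (k2 w ((mU y w).1 hw))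
    have c1 := card_le_card s1
    have c2 := card_le_card s2
    have a1 := hDn x
    have a2 := hDn y
    have a3 := hUn x
    have a4 := hUn y
    refine ⟨x, y, hne, ?_⟩
    have hor : ((D y).card = (D x).card ∧ (U x).card ≤ (U y).card + 1) ∨
        ((D y).card ≤ (D x).card + 1 ∧ (U x).card = (U y).card) := by omega
    rcases hor with ⟨e1, e2⟩ | ⟨e1, e2⟩
    · left
      have e3 := eq_of_subset_of_card_le s1 e1.le
      refine ⟨fun w => by rw [← mD x w, ← mD y w, e3], k2, ?_⟩
      have e4 : (U x \ U y).card ≤ 1 := by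
        have := card_sdiff_add_card_eq_card s2
        omega
      intro w w' l1 l2 l3 l4
      rw [card_le_one] at e4
      exact e4 w (mem_sdiff.2 ⟨(mU x w).2 l1, fun h5 => l2 ((mU y w).1 h5)⟩) w'
        (mem_sdiff.2 ⟨(mU x w').2 l3, fun h5 => l4 ((mU y w').1 h5)⟩)
    · right
      left
      have e3 := eq_of_subset_of_card_le s2 e2.le
      refine ⟨fun w => by rw [← mU x w, ← mU y w, e3], k1, ?_⟩
      have e4 : (D y \ D x).card ≤ 1 := by
        have := card_sdiff_add_card_eq_card s1
        omega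
      intro w w' l1 l2 l3 l4
      rw [card_le_one] at e4
      exact e4 w (mem_sdiff.2 ⟨(mD y w).2 l1, fun h5 => l2 ((mD x w).1 h5)⟩) w'
        (mem_sdiff.2 ⟨(mD y w').2 l3, fun h5 => l4 ((mD x w').1 h5)⟩)
  have main2 : ∀ x y : P, x ≠ y → (∀ w, w < x → w < y) →
      ((D x).card + (n - 2 - (U x).card)) / 2 = ((D y).card + (n - 2 - (U y).card)) / 2 →
      ∃ x y : P, x ≠ y ∧ (
      ((∀ w, w < x ↔ w < y) ∧ (∀ w, y < w → x < w) ∧
        (∀ w w', x < w → ¬ y < w → x < w' → ¬ y < w' → w = w')) ∨
      ((∀ w, x < w ↔ y < w) ∧ (∀ w, w < x → w < y) ∧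
        (∀ w w', w < y → ¬ w < x → w' < y → ¬ w' < x → w = w')) ∨
      ((∀ w, w < x → w < y) ∧ (∀ w, x < w → y < w) ∧ (∃ u, u < y ∧ ¬ u < x) ∧
        ∃ v, y < v ∧ ¬ x < v)) := by
    intro x y hne k1 k3
    by_cases k2 : ∀ w, y < w → x < w
    · exact main x y hne k1 k2 k3
    · have k4 := (h.nestU x y).resolve_right k2
      by_cases k5 : ∀ w, w < y → w < x
      · exact main y x hne.symm k5 k4 k3.symm
      · push Not at k2 k5
        exact ⟨x, y, hne, Or.inr (Or.inr ⟨k1, k4, k5, k2⟩)⟩
  rcases h.nestD x y with k1 | k1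
  · exact main2 x y hne k1 hxy
  · exact main2 y x hne.symm k1 hxy.symm

lemma width_of_three {P : Type} [PartialOrder P] {x y z : P} (hxz : x < z)
    (hall : ∀ w, w = x ∨ w = y ∨ w = z) (s : Finset P) (hs : IsAntichain (· ≤ ·) (s : Set P)) :
    s.card ≤ 2 := by
  classical
  by_cases hz : z ∈ s
  · have hx : x ∉ s := fun hx => hs (mem_coe.2 hx) (mem_coe.2 hz) hxz.ne hxz.le
    have : s ⊆ {y, z} := by
      intro w hw
      rw [mem_insert, mem_singleton]
      rcases hall w with h | h | h
      · exact absurd (h ▸ hw) hx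
      · exact Or.inl h
      · exact Or.inr h
    exact (card_le_card this).trans card_le_two
  · have : s ⊆ {x, y} := by
      intro w hw
      rw [mem_insert, mem_singleton]
      rcases hall w with h | h | h
      · exact Or.inl h
      · exact Or.inr h
      · exact absurd (h ▸ hw) hz
    exact (card_le_card this).trans card_le_two

/-- **The gap above `1/3` for the class.** -/
theorem tame_gap {ε : ℝ} (hg : PairGap ε) (hε : ε ≤ 1 / 200) :
    ∀ (P : Type) [Fintype P] [PartialOrder P] [Nonempty P], Tame P →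
      InD P ∨ 1 / 3 + ε ≤ balance P := by
  have width : ∀ (P : Type) [Fintype P] [PartialOrder P] [Nonempty P],
      (∀ s : Finset P, IsAntichain (· ≤ ·) (s : Set P) → s.card ≤ 2) →
      InD P ∨ 1 / 3 + ε ≤ balance P := by
    intro P _ _ _ hw
    rcases Pool.Agent.TH153.WQ.width_two_gap P hw with h1 | h1
    · exact Or.inl h1
    · right
      refine le_trans ?_ h1
      unfold Pool.Agent.TH153.WQ.cR
      linarith
  have key : ∀ (N : ℕ) (P : Type) [Fintype P] [PartialOrder P] [Nonempty P], Tame P →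
      Fintype.card P = N → InD P ∨ 1 / 3 + ε ≤ balance P := by
    intro N
    induction N using Nat.strong_induction_on with
    | _ N ih =>
      intro P _ _ _ hP hN
      by_cases hS : ∃ S : Set P, S.Nonempty ∧ Sᶜ.Nonempty ∧ ∀ s ∈ S, ∀ t ∉ S, s ≤ t
      · obtain ⟨S, hS, hS', hst⟩ := hS
        obtain ⟨e⟩ := Pool.Agent.TH153.WQ.lex_of_set S hst
        have fS : Finite S := inferInstance
        have fS' : Finite (Sᶜ : Set P) := inferInstance
        have := Fintype.ofFinite S
        have := Fintype.ofFinite (Sᶜ : Set P)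
        have : Nonempty S := hS.to_subtype
        have : Nonempty (Sᶜ : Set P) := hS'.to_subtype
        have hc2 := card_of_iso_sum (P := P) (A := S) (B := (Sᶜ : Set P)) e.toEquiv
        rw [Nat.card_eq_fintype_card, Nat.card_eq_fintype_card] at hc2
        have pA : 0 < Fintype.card S := Fintype.card_pos
        have pB : 0 < Fintype.card (Sᶜ : Set P) := Fintype.card_pos
        have g1 := ih (Fintype.card S) (by omega) S (hP.sub S) rfl
        have g2 := ih (Fintype.card (Sᶜ : Set P)) (by omega) (Sᶜ : Set P) (hP.sub _) rfl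
        have hne : Nonempty (S ⊕ₗ (Sᶜ : Set P)) := ⟨toLex (Sum.inl (Classical.arbitrary S))⟩
        rcases gap_lex g1 g2 with h3 | h3
        · exact Or.inl (InD.iso h3 e.symm)
        · exact Or.inr (h3.trans (balance_iso e.symm))
      · have hI : Indec P := by
          intro S h1 h2 h3
          exact hS ⟨S, h1, h2, h3⟩
        by_cases hn : 2 ≤ Fintype.card P
        · obtain ⟨x, y, hne, h⟩ := hP.1.exists_near hI hn
          rcases h with ⟨h1, h2, h3⟩ | ⟨h1, h2, h3⟩ | ⟨h1, h2, h3, h4⟩
          · rcases hP.core hg hI hne h1 h2 h3 with h4 | ⟨z, hz, hall⟩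
            · exact Or.inr h4
            · exact width P (fun s hs => width_of_three hz hall s hs)
          · rcases hP.dual.core hg hI.dual (x := OrderDual.toDual y) (y := OrderDual.toDual x)
              hne.symm (fun w => (h1 (OrderDual.ofDual w)).symm) (fun w hw => h2 (OrderDual.ofDual w) hw)
              (fun w w' l1 l2 l3 l4 => h3 (OrderDual.ofDual w) (OrderDual.ofDual w') l1 l2 l3 l4)
              with h4 | ⟨z, hz, hall⟩
            · rw [balance_dual P] at h4
              exact Or.inr h4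
            · have hw : InD Pᵒᵈ ∨ 1 / 3 + ε ≤ balance Pᵒᵈ :=
                width Pᵒᵈ (fun s hs => width_of_three hz hall s hs)
              rw [balance_dual P] at hw
              exact hw.imp InD_of_dual id
          · exact Or.inr (nested hg hP.2.1 hP.2.2 h1 h2 h3 h4)
        · refine width P (fun s _ => ?_)
          have := card_le_univ s
          omega
  intro P _ _ _ hP
  exact key _ P hP rfl

/-- **Theorem.** There is an absolute constant `ε > 0` such that every finite interval order without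
induced `Y + 1` and its dual is in the class `𝒟` or has balance constant at least `1/3 + ε`; more
generally all finite posets built by disjoint sums and direct sums from such posets and from the posets of
the classes known before.

The posets of the class `𝒟` are semiorders, and semiorders have no induced `Y + 1`. Posets represented by
intervals of length one on the line are semiorders. -/
theorem result : ∃ ε : ℝ, 0 < ε ∧
    (∀ (R : Type) [Fintype R] [PartialOrder R],
      Built (fun P _ => Nonempty P ∧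
        (Tame P ∨ (∃ e : P ≃o P, e ≠ OrderIso.refl P) ∨
          VOneFree P ∨ VOneFree Pᵒᵈ ∨ (∃ μ : YoungDiagram, Nonempty (P ≃o μ.cells)) ∨
          (∃ A : Finset P, ThinAnti P A ∧ 3 ≤ A.card) ∨
          ∀ x : P, Nat.card {y : P // ¬ x ≤ y ∧ ¬ y ≤ x} ≤ 3)) R →
      InD R ∨ 1 / 3 + ε ≤ balance R) ∧
    (∀ (P : Type) [PartialOrder P], (InD P → Semiorder P) ∧ (Semiorder P → Tame P)) ∧
    (∀ (P : Type) [PartialOrder P] (f : P → ℝ), (∀ x y, x < y ↔ f x + 1 < f y) → Semiorder P) := by
  obtain ⟨ε₁, h1, g1⟩ := cycle_gap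
  obtain ⟨ε₂, h2, g2⟩ := class_gap
  obtain ⟨ε₃, h3, g3⟩ := thin_class
  obtain ⟨ε₄, h4, g4⟩ := pair_gap
  obtain ⟨ε, hε0, e1, e2, e3, e4, e5⟩ : ∃ ε : ℝ, 0 < ε ∧ ε ≤ ε₁ ∧ ε ≤ ε₂ ∧ ε ≤ ε₃ ∧ ε ≤ ε₄ ∧
      ε ≤ 1 / 200 :=
    ⟨min (min (min ε₁ ε₂) (min ε₃ ε₄)) (1 / 200), by positivity,
      (min_le_left _ _).trans ((min_le_left _ _).trans (min_le_left _ _)),
      (min_le_left _ _).trans ((min_le_left _ _).trans (min_le_right _ _)),
      (min_le_left _ _).trans ((min_le_right _ _).trans (min_le_left _ _)),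
      (min_le_left _ _).trans ((min_le_right _ _).trans (min_le_right _ _)), min_le_right _ _⟩
  have hg : PairGap ε := by
    intro P _ _
    refine ⟨fun a b hab => ?_, fun x y z k1 k2 k3 => by linarith [(g4 P).2.2.1 x y z k1 k2 k3]⟩
    rcases (g4 P).1 a b hab with h5 | h5
    · exact Or.inl h5
    · exact Or.inr (by linarith)
  refine ⟨ε, hε0, ?_, fun P _ => ⟨fun h => InD.semiorder h, fun h => h.tame⟩, ?_⟩
  · intro R _ _ hR
    refine (Built.gap (c := 1 / 3 + ε) (by linarith) ?_ hR).2
    intro P _ _ hP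
    obtain ⟨hne, hP⟩ := hP
    refine ⟨hne, ?_⟩
    have k2 : (VOneFree P ∨ VOneFree Pᵒᵈ ∨ (∃ μ : YoungDiagram, Nonempty (P ≃o μ.cells))) →
        InD P ∨ 1 / 3 + ε ≤ balance P := fun h =>
      (g2 P (Built.of P ⟨hne, h⟩)).imp id (fun h => by linarith)
    have k3 : ((∃ A : Finset P, ThinAnti P A ∧ 3 ≤ A.card) ∨
          ∀ x : P, Nat.card {y : P // ¬ x ≤ y ∧ ¬ y ≤ x} ≤ 3) →
        InD P ∨ 1 / 3 + ε ≤ balance P := fun h =>
      (g3 P (Built.of P ⟨hne, h⟩)).imp id (fun h => by linarith)
    rcases hP with h | h | h | h | h | h | h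
    · exact tame_gap hg e5 P h
    · exact Or.inr (by linarith [g1 P (Or.inr h)])
    · exact k2 (Or.inl h)
    · exact k2 (Or.inr (Or.inl h))
    · exact k2 (Or.inr (Or.inr h))
    · exact k3 (Or.inl h)
    · exact k3 (Or.inr h)
  · intro P _ f hf
    refine ⟨fun a b c d hab hcd => ?_, fun a b c d hab hbc => ?_⟩
    · rw [hf] at hab hcd ⊢
      rw [hf c b]
      by_contra hcon
      push Not at hcon
      linarith
    · rw [hf] at hab hbc ⊢
      rw [hf d c]
      by_contra hcon
      push Not at hcon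
      linarith

end Pool.Agent.Results.MP_33fb9b_co.Semiorders
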